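import Pool.Agent.H972ST.Stmts

set_option autoImplicit false
set_option maxHeartbeats 4000000

namespace Pool.Agent.H773.STRep

open Pool.Agent.H972ST

abbrev G := QuaternionGroup 2

/-- characters of integral matrix representations -/
def IsCh (f : G → ℤ) : Prop :=
  ∃ (ι : Type) (_ : Fintype ι) (_ : DecidableEq ι) (φ : G →* Matrix ι ι ℤ), ∀ g, (φ g).trace = f g

theorem IsCh.add {f f' : G → ℤ} (h : IsCh f) (h' : IsCh f') : IsCh (fun g => f g + f' g) := by
  obtain ⟨ι, _, _, φ, hφ⟩ := h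
  obtain ⟨κ, _, _, ψ, hψ⟩ := h'
  refine ⟨ι ⊕ κ, inferInstance, inferInstance,
    { toFun := fun g => Matrix.fromBlocks (φ g) 0 0 (ψ g)
      map_one' := by simp [Matrix.fromBlocks_one]
      map_mul' := by intro a b; simp [Matrix.fromBlocks_multiply] }, fun g => ?_⟩
  show (Matrix.fromBlocks (φ g) 0 0 (ψ g)).trace = f g + f' g
  rw [← hφ g, ← hψ g]
  simp [Matrix.trace, Fintype.sum_sum_type]

theorem IsCh.zero : IsCh (fun _ => 0) :=
  ⟨Empty, inferInstance, inferInstance, 1, fun g => by simp [Matrix.trace]⟩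

theorem IsCh.nsmul {f : G → ℤ} (h : IsCh f) (n : ℕ) : IsCh (fun g => (n : ℤ) * f g) := by
  induction n with
  | zero => simpa using IsCh.zero
  | succ n ih =>
    have := ih.add h
    refine (by
      have e : (fun g => ((n + 1 : ℕ) : ℤ) * f g) = fun g => (n : ℤ) * f g + f g := by
        funext g; push_cast; ring
      rw [e]; exact this)

/-- one-dimensional characters -/
theorem IsCh.one_dim (f : G → ℤ) (h1 : f 1 = 1) (hm : ∀ g h, f (g * h) = f g * f h) : IsCh f :=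
  ⟨Fin 1, inferInstance, inferInstance,
    { toFun := fun g => Matrix.diagonal fun _ => f g
      map_one' := by simp [h1]
      map_mul' := by intro a b; rw [Matrix.diagonal_mul_diagonal]; simp [hm] },
    fun g => by simp [Matrix.trace]⟩

def sgn (k : ZMod (2 * 2)) : ℤ := if k.val % 2 = 0 then 1 else -1

def cI : G → ℤ
  | .a _ => 1
  | .xa _ => -1

def cJ : G → ℤ
  | .a k => sgn k
  | .xa k => sgn k

def cK : G → ℤ
  | .a k => sgn k
  | .xa k => - sgn k

def QI : Matrix (Fin 4) (Fin 4) ℤ := !![0, -1, 0, 0; 1, 0, 0, 0; 0, 0, 0, -1; 0, 0, 1, 0]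
def QJ : Matrix (Fin 4) (Fin 4) ℤ := !![0, 0, -1, 0; 0, 0, 0, 1; 1, 0, 0, 0; 0, -1, 0, 0]

def qm : G → Matrix (Fin 4) (Fin 4) ℤ
  | .a k => QI ^ (ZMod.val k)
  | .xa k => QJ * QI ^ (ZMod.val k)

theorem sgn_add : ∀ a b : ZMod (2 * 2), sgn (a + b) = sgn a * sgn b := by decide

theorem sgn_sub : ∀ a b : ZMod (2 * 2), sgn (a - b) = sgn a * sgn b := by decide

theorem sgn_two : sgn 2 = 1 := by decide

theorem cI_ch : IsCh cI := by
  refine IsCh.one_dim _ rfl ?_
  rintro (i | i) (j | j) <;> simp [cI]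

theorem cJ_ch : IsCh cJ := by
  refine IsCh.one_dim _ rfl ?_
  decide

theorem cK_ch : IsCh cK := by
  refine IsCh.one_dim _ rfl ?_
  decide

theorem qm_mul : ∀ g h : G, qm (g * h) = qm g * qm h := by
  decide +kernel

theorem q_ch : IsCh (fun g => (qm g).trace) :=
  ⟨Fin 4, inferInstance, inferInstance,
    { toFun := qm
      map_one' := by decide +kernel
      map_mul' := qm_mul }, fun g => rfl⟩

theorem triv_ch : IsCh (fun _ => 1) := IsCh.one_dim _ rfl (by simp)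

def ca (i : ℕ) : ℕ := ([1, 6, 32, 90, 130, 90, 32, 6, 1] : List ℕ).getD i 0
def cb (i : ℕ) : ℕ := ([0, 2, 24, 78, 116, 78, 24, 2, 0] : List ℕ).getD i 0
def cc (i : ℕ) : ℕ := ([0, 4, 26, 84, 120, 84, 26, 4, 0] : List ℕ).getD i 0
def cy (i : ℕ) : ℕ := ([0, 3, 25, 81, 118, 81, 25, 3, 0] : List ℕ).getD i 0

theorem val_eq (i : ℕ) (g : G) :
    Hval i g = (ca i : ℤ) * 1 + (cb i : ℤ) * cI g + ((cc i : ℤ) * cJ g + (cc i : ℤ) * cK g) +
      (cy i : ℤ) * (qm g).trace := by
  by_cases hi : i < 9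
  · revert g
    interval_cases i <;> decide +kernel
  · have e1 : H1 i = 0 := by
      unfold H1; rw [List.getD_eq_default]; simp; omega
    have e2 : HA i = 0 := by
      unfold HA; rw [List.getD_eq_default]; simp; omega
    have e3 : HB i = 0 := by
      unfold HB; rw [List.getD_eq_default]; simp; omega
    have f1 : ca i = 0 := by
      unfold ca; rw [List.getD_eq_default]; simp; omega
    have f2 : cb i = 0 := by
      unfold cb; rw [List.getD_eq_default]; simp; omega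
    have f3 : cc i = 0 := by
      unfold cc; rw [List.getD_eq_default]; simp; omega
    have f4 : cy i = 0 := by
      unfold cy; rw [List.getD_eq_default]; simp; omega
    rw [f1, f2, f3, f4]
    cases g with
    | a k => simp only [Hval, e1, e2, e3]; split_ifs <;> simp
    | xa k => simp only [Hval, e2]; simp

theorem hval_ch (i : ℕ) : IsCh (Hval i) := by
  have h := (((triv_ch.nsmul (ca i)).add (cI_ch.nsmul (cb i))).add
    ((cJ_ch.nsmul (cc i)).add (cK_ch.nsmul (cc i)))).add (q_ch.nsmul (cy i))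
  have e : Hval i = fun g => (ca i : ℤ) * 1 + (cb i : ℤ) * cI g +
      ((cc i : ℤ) * cJ g + (cc i : ℤ) * cK g) + (cy i : ℤ) * (qm g).trace := by
    funext g; exact val_eq i g
  rw [e]; exact h

theorem IsCh.rep {f : G → ℤ} (h : IsCh f) : ∃ V : FDRep ℂ G, ∀ g, V.character g = ((f g : ℤ) : ℂ) := by
  obtain ⟨ι, _, _, φ, hφ⟩ := h
  let φC : G →* Matrix ι ι ℂ :=
    (((Int.castRingHom ℂ).mapMatrix : Matrix ι ι ℤ →+* Matrix ι ι ℂ) : Matrix ι ι ℤ →* Matrix ι ι ℂ).comp φ
  let ρ : G →* ((ι → ℂ) →ₗ[ℂ] (ι → ℂ)) :=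
    ((Matrix.toLinAlgEquiv' : Matrix ι ι ℂ ≃ₐ[ℂ] ((ι → ℂ) →ₗ[ℂ] (ι → ℂ))) :
      Matrix ι ι ℂ →* ((ι → ℂ) →ₗ[ℂ] (ι → ℂ))).comp φC
  refine ⟨FDRep.of ρ, fun g => ?_⟩
  show LinearMap.trace ℂ (ι → ℂ) (ρ g) = _
  have h1 : ρ g = Matrix.toLin' (φC g) := rfl
  rw [h1, Matrix.trace_toLin'_eq, ← hφ g]
  simp only [φC, MonoidHom.comp_apply]
  simp [Matrix.trace]

theorem tRep : TRep := fun i => (hval_ch i).rep

end Pool.Agent.H773.STRep
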