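import Pool.Agent.H881R4.Cone

/-!
# Adding a segment to a convex body (for `MP_7818d0_gt`)
-/

set_option autoImplicit false
set_option maxHeartbeats 4000000

open MeasureTheory Set
open Pool.Agent.H881R4.Shadow
open scoped Pointwise ENNReal

namespace Pool.Agent.H773.Shadow

/-- adding a segment in the direction of the first coordinate -/
theorem prod_seg {m : ℕ} {C : Set (ℝ × (Fin m → ℝ))} (hCc : IsCompact C) (hC : Convex ℝ C)
    {δ : ℝ} (hδ : 0 ≤ δ) :
    volume {p : ℝ × (Fin m → ℝ) | ∃ s, 0 ≤ s ∧ s ≤ δ ∧ (p.1 - s, p.2) ∈ C} =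
      volume C + ENNReal.ofReal δ * volume (Prod.snd '' C) := by
  set C' : Set (ℝ × (Fin m → ℝ)) := {p | ∃ s, 0 ≤ s ∧ s ≤ δ ∧ (p.1 - s, p.2) ∈ C} with hC'
  have hC'c : IsCompact C' := by
    have : C' = (fun q : (ℝ × (Fin m → ℝ)) × ℝ => (q.1.1 + q.2, q.1.2)) '' (C ×ˢ Icc 0 δ) := by
      ext p
      constructor
      · rintro ⟨s, h0, h1, h2⟩
        refine ⟨((p.1 - s, p.2), s), ⟨h2, h0, h1⟩, ?_⟩
        ext
        · simp
        · rfl
      · rintro ⟨⟨⟨x, y⟩, s⟩, ⟨h2, h0, h1⟩, rfl⟩
        refine ⟨s, h0, h1, ?_⟩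
        simpa using h2
    rw [this]
    exact (hCc.prod isCompact_Icc).image (by fun_prop)
  have hBc : IsCompact (Prod.snd '' C) := hCc.image continuous_snd
  have hfib : ∀ y : Fin m → ℝ, volume ((fun x : ℝ => (x, y)) ⁻¹' C') =
      volume ((fun x : ℝ => (x, y)) ⁻¹' C) +
        (Prod.snd '' C).indicator (fun _ => ENNReal.ofReal δ) y := by
    intro y
    rcases ((fun x : ℝ => (x, y)) ⁻¹' C).eq_empty_or_nonempty with h | h
    · have h1 : (fun x : ℝ => (x, y)) ⁻¹' C' = ∅ := by
        rw [Set.eq_empty_iff_forall_notMem]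
        rintro x ⟨s, _, _, h2⟩
        have : x - s ∈ (fun x : ℝ => (x, y)) ⁻¹' C := h2
        rw [h] at this
        exact this
      have h2 : y ∉ Prod.snd '' C := by
        rintro ⟨⟨x, y'⟩, hp, rfl⟩
        have : x ∈ (fun x : ℝ => (x, y')) ⁻¹' C := hp
        rw [h] at this
        exact this
      rw [h1, h, Set.indicator_of_notMem h2]
      simp
    · have h2 : y ∈ Prod.snd '' C := by
        obtain ⟨x, hx⟩ := h
        exact ⟨(x, y), hx, rfl⟩
      have hconv : Convex ℝ ((fun x : ℝ => (x, y)) ⁻¹' C) := by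
        intro x hx x' hx' a b ha hb hab
        have h7 := hC hx hx' ha hb hab
        have h8 : a • ((x, y) : ℝ × (Fin m → ℝ)) + b • ((x', y) : ℝ × (Fin m → ℝ)) =
            (a • x + b • x', y) := by
          rw [Prod.smul_mk, Prod.smul_mk, Prod.mk_add_mk, ← add_smul, hab, one_smul]
        change (a • x + b • x', y) ∈ C
        rw [← h8]
        exact h7
      have hcomp : IsCompact ((fun x : ℝ => (x, y)) ⁻¹' C) := by
        have : (fun x : ℝ => (x, y)) ⁻¹' C = Prod.fst '' (C ∩ {p | p.2 = y}) := by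
          ext x
          constructor
          · intro hx
            exact ⟨(x, y), ⟨hx, rfl⟩, rfl⟩
          · rintro ⟨⟨x', y'⟩, ⟨h1, h2⟩, rfl⟩
            simp only [mem_ofPred_eq] at h2
            subst h2
            exact h1
        rw [this]
        exact (hCc.inter_right (isClosed_eq (by fun_prop) (by fun_prop))).image continuous_fst
      have hI := eq_Icc_of_connected_compact ⟨h, hconv.isPreconnected⟩ hcomp
      set a := sInf ((fun x : ℝ => (x, y)) ⁻¹' C)
      set b := sSup ((fun x : ℝ => (x, y)) ⁻¹' C)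
      have hab : a ≤ b := by
        rw [hI] at h
        exact nonempty_Icc.1 h
      have hz : ∀ z : ℝ, (z, y) ∈ C ↔ z ∈ Icc a b := by
        intro z
        rw [← hI]
        rfl
      have hI' : (fun x : ℝ => (x, y)) ⁻¹' C' = Icc a (b + δ) := by
        ext x
        constructor
        · rintro ⟨s, h0, h1, h3⟩
          have h4 := (hz (x - s)).1 h3
          exact ⟨by linarith [h4.1], by linarith [h4.2]⟩
        · rintro ⟨h0, h1⟩
          rcases le_total x b with h3 | h3
          · refine ⟨0, le_refl _, hδ, ?_⟩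
            change (x - 0, y) ∈ C
            rw [hz]
            exact ⟨by linarith, by linarith⟩
          · refine ⟨x - b, by linarith, by linarith, ?_⟩
            change (x - (x - b), y) ∈ C
            rw [hz]
            exact ⟨by linarith, by linarith⟩
      rw [hI', hI, Set.indicator_of_mem h2, Real.volume_Icc, Real.volume_Icc,
        ← ENNReal.ofReal_add (by linarith) hδ]
      congr 1
      ring
  rw [Measure.volume_eq_prod, Measure.prod_apply_symm hC'c.measurableSet,
    Measure.prod_apply_symm hCc.measurableSet]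
  simp only [hfib]
  rw [lintegral_add_right _ (measurable_const.indicator hBc.measurableSet),
    lintegral_indicator hBc.measurableSet, setLIntegral_const]

theorem seg (n : ℕ) (hn : 1 ≤ n) (a : E n) : ∃ sh : Set (E n) → ℝ≥0∞,
    (∀ M, IsCompact M → sh M ≠ ⊤) ∧
    (∀ M, IsCompact M → Convex ℝ M → ∀ ε : ℝ, 0 ≤ ε →
      volume (M + segment ℝ 0 (ε • a)) = volume M + ENNReal.ofReal ε * sh M) ∧
    (∀ (M M' : Set (E n)) (v : E n), (∀ x ∈ M, ∃ y ∈ M', ∃ s : ℝ, x + v = y + s • a) →
      sh M ≤ sh M') ∧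
    (∀ (M : Set (E n)) (r : ℝ), 0 < r → sh (r • M) = ENNReal.ofReal (r ^ (n - 1)) * sh M) := by
  by_cases ha : a = 0
  · subst ha
    refine ⟨fun _ => 0, fun _ _ => ENNReal.zero_ne_top, ?_, fun _ _ _ _ => le_refl _, ?_⟩
    · intro M _ _ ε _
      simp
    · intro M r _
      simp
  obtain ⟨m, rfl⟩ : ∃ m, n = m + 1 := ⟨n - 1, by omega⟩
  have hna : 0 < ‖a‖ := norm_pos_iff.mpr ha
  obtain ⟨Q, hQ, hQ1⟩ := frame m (‖a‖⁻¹ • a) (by
    rw [norm_smul, norm_inv, norm_norm, inv_mul_cancel₀ hna.ne'])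
  have hQa : ∀ s : ℝ, Q (s * ‖a‖, 0) = s • a := by
    intro s
    have : ((s * ‖a‖, 0) : ℝ × (Fin m → ℝ)) = (s * ‖a‖) • ((1, 0) : ℝ × (Fin m → ℝ)) := by
      ext <;> simp
    rw [this, map_smul, hQ1, smul_smul, mul_assoc, mul_inv_cancel₀ hna.ne', mul_one]
  let π : E (m + 1) →L[ℝ] (Fin m → ℝ) :=
    (ContinuousLinearMap.snd ℝ ℝ (Fin m → ℝ)).comp (Q.symm : E (m + 1) →L[ℝ] (ℝ × (Fin m → ℝ)))
  have hπ : ∀ x, π x = (Q.symm x).2 := fun _ => rfl
  have hπa : π a = 0 := by
    have h1 : a = Q (1 * ‖a‖, 0) := by rw [hQa, one_smul]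
    rw [hπ]
    conv_lhs => rw [h1]
    rw [ContinuousLinearEquiv.symm_apply_apply]
  have himg : ∀ M : Set (E (m + 1)), π '' M = Prod.snd '' (Q ⁻¹' M) := by
    intro M
    ext y
    constructor
    · rintro ⟨x, hx, rfl⟩
      exact ⟨Q.symm x, by simpa using hx, rfl⟩
    · rintro ⟨p, hp, rfl⟩
      exact ⟨Q p, hp, by rw [hπ, ContinuousLinearEquiv.symm_apply_apply]⟩
  refine ⟨fun M => ENNReal.ofReal ‖a‖ * volume (π '' M), ?_, ?_, ?_, ?_⟩
  · intro M hM
    exact ENNReal.mul_ne_top ENNReal.ofReal_ne_top (hM.image π.continuous).measure_ne_top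
  · intro M hM hMc ε hε
    have hseg : IsCompact (segment ℝ 0 (ε • a)) := by
      rw [segment_eq_image]
      exact isCompact_Icc.image (by fun_prop)
    have hsum : IsCompact (M + segment ℝ 0 (ε • a)) := hM.add hseg
    have hpre : IsCompact (Q ⁻¹' M) := by
      have := hM.image Q.symm.continuous
      rwa [Q.symm.image_eq_preimage_symm, ContinuousLinearEquiv.symm_symm] at this
    have hpconv : Convex ℝ (Q ⁻¹' M) := hMc.linear_preimage (Q : (ℝ × (Fin m → ℝ)) →ₗ[ℝ] E (m + 1))
    have hset : Q ⁻¹' (M + segment ℝ 0 (ε • a)) =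
        {p : ℝ × (Fin m → ℝ) | ∃ s, 0 ≤ s ∧ s ≤ ε * ‖a‖ ∧ (p.1 - s, p.2) ∈ Q ⁻¹' M} := by
      ext p
      have hsub : ∀ s : ℝ, Q (p.1 - s * ‖a‖, p.2) = Q p - s • a := by
        intro s
        rw [← hQa, ← map_sub]
        congr 1
        ext <;> simp
      constructor
      · rintro ⟨x, hx, y, hy, hxy⟩
        rw [segment_eq_image] at hy
        obtain ⟨θ, ⟨h0, h1⟩, rfl⟩ := hy
        refine ⟨θ * ε * ‖a‖, by positivity, ?_, ?_⟩
        · have : θ * ε ≤ 1 * ε := mul_le_mul_of_nonneg_right h1 hε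
          have := mul_le_mul_of_nonneg_right this hna.le
          linarith
        · change Q (p.1 - θ * ε * ‖a‖, p.2) ∈ M
          rw [hsub, ← hxy]
          simpa [smul_smul] using hx
      · rintro ⟨s, h0, h1, h2⟩
        refine ⟨Q p - (s / ‖a‖) • a, ?_, (s / ‖a‖) • a, ?_, by simp⟩
        · have h3 := hsub (s / ‖a‖)
          rw [div_mul_cancel₀ _ hna.ne'] at h3
          rw [← h3]
          exact h2
        · rw [segment_eq_image]
          rcases hε.eq_or_lt with h5 | h5
          · refine ⟨0, ⟨le_refl _, zero_le_one⟩, ?_⟩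
            have : s = 0 := by
              rw [← h5, zero_mul] at h1
              exact le_antisymm h1 h0
            simp [this]
          · refine ⟨s / ‖a‖ / ε, ⟨by positivity, ?_⟩, ?_⟩
            · rw [div_le_one h5, div_le_iff₀ hna]; exact h1
            · simp only [smul_zero, zero_add, smul_smul]
              rw [div_mul_cancel₀ _ h5.ne']
    have e1 : volume (M + segment ℝ 0 (ε • a)) = volume (Q ⁻¹' (M + segment ℝ 0 (ε • a))) :=
      (hQ.measure_preimage hsum.measurableSet.nullMeasurableSet).symm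
    have e2 : volume M = volume (Q ⁻¹' M) :=
      (hQ.measure_preimage hM.measurableSet.nullMeasurableSet).symm
    show volume (M + segment ℝ 0 (ε • a)) =
      volume M + ENNReal.ofReal ε * (ENNReal.ofReal ‖a‖ * volume (π '' M))
    rw [himg, e1, e2, hset, prod_seg hpre hpconv (by positivity), ENNReal.ofReal_mul hε, mul_assoc]
  · intro M M' v h
    have hsub : π '' M ⊆ (-(π v)) +ᵥ (π '' M') := by
      rintro _ ⟨x, hx, rfl⟩
      obtain ⟨y, hy, s, hs⟩ := h x hx
      refine ⟨π y, ⟨y, hy, rfl⟩, ?_⟩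
      have h1 := congrArg π hs
      rw [map_add, map_add, map_smul, hπa, smul_zero, add_zero] at h1
      change -(π v) + π y = π x
      rw [← h1]
      abel
    have h2 : volume (π '' M) ≤ volume (π '' M') := by
      calc volume (π '' M) ≤ volume ((-(π v)) +ᵥ (π '' M')) := measure_mono hsub
        _ = volume (π '' M') := measure_vadd _ _ _
    exact mul_le_mul_right h2 _
  · intro M r hr
    have h1 : π '' (r • M) = r • (π '' M) := by
      ext y
      constructor
      · rintro ⟨_, ⟨x, hx, rfl⟩, rfl⟩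
        exact ⟨π x, ⟨x, hx, rfl⟩, by simp⟩
      · rintro ⟨_, ⟨x, hx, rfl⟩, rfl⟩
        exact ⟨r • x, ⟨x, hx, rfl⟩, by simp⟩
    simp only [h1]
    rw [Measure.addHaar_smul, Module.finrank_fin_fun, abs_of_pos (pow_pos hr m),
      Nat.add_sub_cancel, mul_left_comm]

end Pool.Agent.H773.Shadow
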