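import Mathlib

/-!
# The one-dimensional inequality for the volume bound of `MP_7818d0_gt`
-/

set_option autoImplicit false
set_option maxHeartbeats 4000000

open MeasureTheory

namespace Pool.Agent.H773.Shadow

theorem claim {R M t : ℝ} (hR : 0 ≤ R) (hM : 0 < M) (h0 : 0 < t) (h1 : t < 1) (f : ℝ → ℝ)
    (hanti : AntitoneOn f (Set.Icc 0 M)) (hnn : ∀ s, 0 ≤ f s) (hf0 : f 0 = R)
    (hconc : ∀ s s' r : ℝ, s ∈ Set.Icc 0 M → s' ∈ Set.Icc 0 M → 0 ≤ r → r ≤ 1 →
      (1 - r) * f s + r * f s' ≤ f ((1 - r) * s + r * s')) :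
    ∃ N, 0 < N ∧ M ≤ N ∧ (1 - t) * N ≤ M ∧
      (∀ s, 0 ≤ s → s < (1 - t) * N → R * (1 - s / N) ≤ f s) ∧
      (∀ s, (1 - t) * N < s → s ≤ M → f s ≤ R * (1 - s / N)) := by
  have ht : 0 < 1 - t := by linarith
  set S : Set ℝ := {s | s ∈ Set.Icc 0 M ∧ t * R ≤ f s} with hS
  have h0M : (0 : ℝ) ∈ Set.Icc 0 M := ⟨le_refl _, hM.le⟩
  have hMM : M ∈ Set.Icc 0 M := ⟨hM.le, le_refl _⟩
  have hmem : (1 - t) * M ∈ S := by
    refine ⟨⟨by positivity, by nlinarith⟩, ?_⟩
    have := hconc 0 M (1 - t) h0M hMM ht.le (by linarith)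
    rw [hf0] at this
    have h2 := hnn M
    have e : (1 - (1 - t)) * 0 + (1 - t) * M = (1 - t) * M := by ring
    rw [e] at this
    nlinarith [mul_nonneg ht.le h2]
  have hbdd : BddAbove S := ⟨M, fun s hs => hs.1.2⟩
  set a : ℝ := sSup S with ha
  have haM : a ≤ M := csSup_le ⟨_, hmem⟩ fun s hs => hs.1.2
  have hla : (1 - t) * M ≤ a := le_csSup hbdd hmem
  have ha0 : 0 < a := lt_of_lt_of_le (by positivity) hla
  have hfR : ∀ s ∈ Set.Icc 0 M, f s ≤ R := by
    intro s hs; rw [← hf0]; exact hanti h0M hs hs.1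
  have hN : (1 - t) * (a / (1 - t)) = a := by field_simp
  refine ⟨a / (1 - t), by positivity, ?_, ?_, ?_, ?_⟩
  · rw [le_div_iff₀ ht]; linarith
  · rw [hN]; exact haM
  · intro s hs hsa
    rw [hN] at hsa
    have key : (R - f s) * a ≤ R * (1 - t) * s := by
      by_contra hcon
      push Not at hcon
      have hpos : 0 < R - f s := by
        by_contra hc
        push Not at hc
        have : (R - f s) * a ≤ 0 := mul_nonpos_of_nonpos_of_nonneg hc ha0.le
        have : 0 ≤ R * (1 - t) * s := by positivity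
        linarith
      have hlt : max s (R * (1 - t) * s / (R - f s)) < a := by
        rw [max_lt_iff]
        refine ⟨hsa, ?_⟩
        rw [div_lt_iff₀ hpos]; linarith
      obtain ⟨s', hs', hlt'⟩ := exists_lt_of_lt_csSup ⟨_, hmem⟩ hlt
      rw [max_lt_iff] at hlt'
      obtain ⟨h3, h4⟩ := hlt'
      have hs'0 : 0 < s' := lt_of_le_of_lt hs h3
      rw [div_lt_iff₀ hpos] at h4
      have h5 := hconc 0 s' (s / s') h0M hs'.1 (by positivity) (by
        rw [div_le_one hs'0]; exact h3.le)
      have e : (1 - s / s') * 0 + s / s' * s' = s := by field_simp; ring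
      rw [e, hf0] at h5
      have h6 : s' * ((1 - s / s') * R + s / s' * f s') ≤ s' * f s :=
        mul_le_mul_of_nonneg_left h5 hs'0.le
      have e2 : s' * ((1 - s / s') * R + s / s' * f s') = (s' - s) * R + s * f s' := by
        field_simp
      rw [e2] at h6
      have h7 : s * (t * R) ≤ s * f s' := mul_le_mul_of_nonneg_left hs'.2 hs
      nlinarith
    have e3 : s / (a / (1 - t)) = s * (1 - t) / a := by field_simp
    rw [e3]
    have h8 : R - f s ≤ R * (1 - t) * s / a := by
      rw [le_div_iff₀ ha0]; exact key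
    have e4 : R * (1 - s * (1 - t) / a) = R - R * (1 - t) * s / a := by ring
    rw [e4]; linarith
  · intro s hsa hsM
    rw [hN] at hsa
    have hs0 : 0 < s := ha0.trans hsa
    have hsI : s ∈ Set.Icc 0 M := ⟨hs0.le, hsM⟩
    have key : R * (1 - t) * s ≤ (R - f s) * a := by
      by_contra hcon
      push Not at hcon
      have hge : 0 ≤ R - f s := by linarith [hfR s hsI]
      obtain ⟨x, hx1, hx2, hx3⟩ : ∃ x, a < x ∧ x < s ∧ (R - f s) * x < R * (1 - t) * s := by
        rcases hge.eq_or_lt with h | h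
        · refine ⟨(a + s) / 2, by linarith, by linarith, ?_⟩
          rw [← h] at hcon ⊢
          simpa using hcon
        · have : a < min s (R * (1 - t) * s / (R - f s)) := by
            rw [lt_min_iff]
            refine ⟨hsa, ?_⟩
            rw [lt_div_iff₀ h]; linarith
          obtain ⟨x, hx1, hx2⟩ := exists_between this
          rw [lt_min_iff] at hx2
          refine ⟨x, hx1, hx2.1, ?_⟩
          have := hx2.2
          rw [lt_div_iff₀ h] at this
          linarith
      have hx0 : 0 < x := ha0.trans hx1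
      have hxI : x ∈ Set.Icc 0 M := ⟨hx0.le, hx2.le.trans hsM⟩
      have hfx : f x < t * R := by
        by_contra hc
        push Not at hc
        exact absurd (le_csSup hbdd (show x ∈ S from ⟨hxI, hc⟩)) (not_le.mpr hx1)
      have h5 := hconc 0 s (x / s) h0M hsI (by positivity) (by
        rw [div_le_one hs0]; exact hx2.le)
      have e : (1 - x / s) * 0 + x / s * s = x := by field_simp; ring
      rw [e, hf0] at h5
      have h6 : s * ((1 - x / s) * R + x / s * f s) ≤ s * f x :=
        mul_le_mul_of_nonneg_left h5 hs0.le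
      have e2 : s * ((1 - x / s) * R + x / s * f s) = (s - x) * R + x * f s := by
        field_simp
      rw [e2] at h6
      have h7 : s * f x < s * (t * R) := mul_lt_mul_of_pos_left hfx hs0
      nlinarith
    have e3 : s / (a / (1 - t)) = s * (1 - t) / a := by field_simp
    rw [e3]
    have h8 : R * (1 - t) * s / a ≤ R - f s := by
      rw [div_le_iff₀ ha0]; exact key
    have e4 : R * (1 - s * (1 - t) / a) = R - R * (1 - t) * s / a := by ring
    rw [e4]; linarith

theorem bern (m : ℕ) {t : ℝ} (h0 : 0 < t) (h1 : t < 1) : t ^ m * (m + 1 - m * t) ≤ 1 := by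
  have h2 : (1 : ℝ) + m * (1 / t - 1) ≤ (1 + (1 / t - 1)) ^ m := by
    apply one_add_mul_le_pow
    have : 0 < 1 / t := by positivity
    linarith
  have e : (1 : ℝ) + (1 / t - 1) = 1 / t := by ring
  rw [e] at h2
  have h3 : (m : ℝ) + 1 - m * t ≤ 1 + m * (1 / t - 1) := by
    have : 1 - t ≤ 1 / t - 1 := by
      have : 1 / t - 1 = (1 - t) / t := by field_simp
      rw [this, le_div_iff₀ h0]
      nlinarith
    have hm : (0 : ℝ) ≤ m := Nat.cast_nonneg m
    nlinarith [mul_le_mul_of_nonneg_left this hm]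
  calc t ^ m * (m + 1 - m * t) ≤ t ^ m * (1 / t) ^ m := by
        apply mul_le_mul_of_nonneg_left (h3.trans h2) (by positivity)
    _ = 1 := by rw [← mul_pow]; rw [mul_one_div_cancel h0.ne', one_pow]

/-- The integral of the comparison function. -/
theorem intG (m : ℕ) (R N x y : ℝ) (hN : 0 < N) :
    ∫ s in x..y, (R * (1 - s / N)) ^ m =
      R ^ m * N / (m + 1) * ((1 - x / N) ^ (m + 1) - (1 - y / N) ^ (m + 1)) := by
  have hd : ∀ s ∈ Set.uIcc x y,
      HasDerivAt (fun s => -(R ^ m * N / (m + 1) * (1 - s / N) ^ (m + 1)))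
        ((R * (1 - s / N)) ^ m) s := by
    intro s _
    have h1 : HasDerivAt (fun s : ℝ => 1 - s / N) (-(1 / N)) s := by
      have := (hasDerivAt_id s).div_const N
      simpa using this.const_sub 1
    have h2 : HasDerivAt (fun s : ℝ => -(R ^ m * N / (m + 1) * (1 - s / N) ^ (m + 1)))
        (-(R ^ m * N / (m + 1) * (((m + 1 : ℕ) : ℝ) * (1 - s / N) ^ (m + 1 - 1) * -(1 / N)))) s :=
      ((h1.fun_pow (m + 1)).const_mul (R ^ m * N / (m + 1))).fun_neg
    refine h2.congr_deriv ?_
    rw [mul_pow]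
    have : ((m : ℝ) + 1) ≠ 0 := by positivity
    push_cast
    field_simp
  rw [intervalIntegral.integral_eq_sub_of_hasDerivAt hd]
  · ring
  · apply Continuous.intervalIntegrable; fun_prop

theorem oneD {m : ℕ} (hm : 1 ≤ m) {R M t : ℝ} (hR : 0 ≤ R) (hM : 0 < M) (h0 : 0 < t)
    (h1 : t < 1) (φ : ℝ → ℝ) (hanti : AntitoneOn φ (Set.Icc 0 M)) (hnn : ∀ s, 0 ≤ φ s)
    (hφ0 : φ 0 = R ^ m)
    (hconc : ∀ a b s s' r : ℝ, 0 ≤ a → 0 ≤ b → s ∈ Set.Icc 0 M → s' ∈ Set.Icc 0 M →
      a ^ m ≤ φ s → b ^ m ≤ φ s' → 0 ≤ r → r ≤ 1 →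
      ((1 - r) * a + r * b) ^ m ≤ φ ((1 - r) * s + r * s')) :
    ∫ s in (0:ℝ)..M, min (t ^ m * R ^ m) (φ s) ≤
      t ^ m * (m + 1 - m * t) * ∫ s in (0:ℝ)..M, φ s := by
  have hm0 : m ≠ 0 := by omega
  set f : ℝ → ℝ := fun s => (φ s) ^ ((m : ℝ)⁻¹) with hf
  have hfn : ∀ s, 0 ≤ f s := fun s => Real.rpow_nonneg (hnn s) _
  have hfp : ∀ s, f s ^ m = φ s := fun s => Real.rpow_inv_natCast_pow (hnn s) hm0
  have hf0 : f 0 = R := by
    simp only [hf, hφ0]
    exact Real.pow_rpow_inv_natCast hR hm0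
  obtain ⟨N, hN0, hMN, hNM, hc1, hc2⟩ := claim hR hM h0 h1 f
    (by
      intro x hx y hy hxy
      exact Real.rpow_le_rpow (hnn y) (hanti hx hy hxy) (by positivity))
    hfn hf0
    (by
      intro s s' r hs hs' hr0 hr1
      have := hconc (f s) (f s') s s' r (hfn s) (hfn s') hs hs' (hfp s).le (hfp s').le hr0 hr1
      rw [← hfp ((1 - r) * s + r * s')] at this
      exact le_of_pow_le_pow_left₀ hm0 (hfn _) this)
  set a : ℝ := (1 - t) * N with ha
  have ht : 0 < 1 - t := by linarith
  have ha0 : 0 < a := by positivity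
  set c : ℝ := t ^ m * (m + 1 - m * t) with hc
  have hmt : (0 : ℝ) ≤ m + 1 - m * t := by
    have : (0 : ℝ) ≤ m := Nat.cast_nonneg m
    nlinarith
  have hc0 : 0 ≤ c := by positivity
  have hc1' : c ≤ 1 := bern m h0 h1
  set T : ℝ := t ^ m * R ^ m with hT
  have hT0 : 0 ≤ T := by positivity
  set G : ℝ → ℝ := fun s => (R * (1 - s / N)) ^ m with hG
  have hGc : Continuous G := by fun_prop
  -- integrability
  have iφ : ∀ x y, x ∈ Set.Icc 0 M → y ∈ Set.Icc 0 M → IntervalIntegrable φ volume x y := by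
    intro x y hx hy
    apply AntitoneOn.intervalIntegrable
    exact hanti.mono (Set.uIcc_subset_Icc hx hy)
  have iμ : ∀ x y, x ∈ Set.Icc 0 M → y ∈ Set.Icc 0 M →
      IntervalIntegrable (fun s => min T (φ s)) volume x y := by
    intro x y hx hy
    apply AntitoneOn.intervalIntegrable
    intro u hu v hv huv
    have := hanti (Set.uIcc_subset_Icc hx hy hu) (Set.uIcc_subset_Icc hx hy hv) huv
    exact min_le_min_left T this
  have h0M : (0 : ℝ) ∈ Set.Icc 0 M := ⟨le_refl _, hM.le⟩
  have hMM : M ∈ Set.Icc 0 M := ⟨hM.le, le_refl _⟩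
  have haM : a ∈ Set.Icc 0 M := ⟨ha0.le, hNM⟩
  have iG : ∀ x y, IntervalIntegrable G volume x y := fun x y => hGc.intervalIntegrable x y
  -- first part
  have p1 : ∫ s in (0:ℝ)..a, (min T (φ s) - c * φ s) ≤ ∫ s in (0:ℝ)..a, (T - c * G s) := by
    apply intervalIntegral.integral_mono_on_of_le_Ioo ha0.le
    · exact (iμ _ _ h0M haM).sub ((iφ _ _ h0M haM).const_mul c)
    · exact (intervalIntegrable_const).sub ((iG _ _).const_mul c)
    · intro s hs
      have hg := hc1 s hs.1.le hs.2
      have hs1 : 0 ≤ 1 - s / N := by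
        rw [sub_nonneg, div_le_one hN0]; linarith [hs.2, hNM]
      have : G s ≤ φ s := by
        rw [← hfp s]
        exact pow_le_pow_left₀ (mul_nonneg hR hs1) hg m
      have h2 : min T (φ s) ≤ T := min_le_left _ _
      nlinarith
  have p2 : ∫ s in a..M, (min T (φ s) - c * φ s) ≤ ∫ s in a..M, (1 - c) * G s := by
    apply intervalIntegral.integral_mono_on_of_le_Ioo hNM
    · exact (iμ _ _ haM hMM).sub ((iφ _ _ haM hMM).const_mul c)
    · exact (iG _ _).const_mul _
    · intro s hs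
      have hg := hc2 s hs.1 hs.2.le
      have : φ s ≤ G s := by
        rw [← hfp s]
        exact pow_le_pow_left₀ (hfn s) hg m
      have h2 : min T (φ s) ≤ φ s := min_le_right _ _
      nlinarith
  have p3 : ∫ s in a..M, (1 - c) * G s ≤ ∫ s in a..N, (1 - c) * G s := by
    have hsplit : (∫ s in a..M, (1 - c) * G s) + (∫ s in M..N, (1 - c) * G s) =
        ∫ s in a..N, (1 - c) * G s :=
      intervalIntegral.integral_add_adjacent_intervals ((iG _ _).const_mul _)
        ((iG _ _).const_mul _)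
    have hnonneg : 0 ≤ ∫ s in M..N, (1 - c) * G s := by
      apply intervalIntegral.integral_nonneg hMN
      intro s hs
      have hs1 : 0 ≤ 1 - s / N := by
        rw [sub_nonneg, div_le_one hN0]; exact hs.2
      have : 0 ≤ G s := pow_nonneg (mul_nonneg hR hs1) m
      exact mul_nonneg (by linarith) this
    linarith
  have hsum : (∫ s in (0:ℝ)..a, (min T (φ s) - c * φ s)) +
      (∫ s in a..M, (min T (φ s) - c * φ s)) = ∫ s in (0:ℝ)..M, (min T (φ s) - c * φ s) :=
    intervalIntegral.integral_add_adjacent_intervals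
      ((iμ _ _ h0M haM).sub ((iφ _ _ h0M haM).const_mul c))
      ((iμ _ _ haM hMM).sub ((iφ _ _ haM hMM).const_mul c))
  have hsub : ∫ s in (0:ℝ)..M, (min T (φ s) - c * φ s) =
      (∫ s in (0:ℝ)..M, min T (φ s)) - c * ∫ s in (0:ℝ)..M, φ s := by
    rw [intervalIntegral.integral_sub (iμ _ _ h0M hMM) ((iφ _ _ h0M hMM).const_mul c),
      intervalIntegral.integral_const_mul]
  have hz : (∫ s in (0:ℝ)..a, (T - c * G s)) + ∫ s in a..N, (1 - c) * G s = 0 := by
    have e1 : 1 - a / N = t := by rw [ha]; field_simp; ring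
    have e2 : 1 - N / N = 0 := by rw [div_self hN0.ne']; ring
    have q1 : ∫ s in (0:ℝ)..a, (T - c * G s) =
        (∫ s in (0:ℝ)..a, T) - ∫ s in (0:ℝ)..a, c * G s :=
      intervalIntegral.integral_sub intervalIntegrable_const ((iG _ _).const_mul c)
    have q2 : ∫ s in (0:ℝ)..a, c * G s = c * ∫ s in (0:ℝ)..a, G s :=
      intervalIntegral.integral_const_mul _ _
    have q3 : ∫ s in a..N, (1 - c) * G s = (1 - c) * ∫ s in a..N, G s :=
      intervalIntegral.integral_const_mul _ _
    have q4 : ∫ s in (0:ℝ)..a, T = a * T := by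
      rw [intervalIntegral.integral_const, smul_eq_mul, sub_zero]
    rw [q1, q2, q3, q4, hG, intG m R N 0 a hN0, intG m R N a N hN0,
      e1, e2, zero_div, sub_zero, one_pow, zero_pow (by omega), hc, hT, ha]
    have : ((m : ℝ) + 1) ≠ 0 := by positivity
    field_simp
    ring
  linarith

end Pool.Agent.H773.Shadow
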